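import Pool.Agent.Spd.Final

/-!
# MP_0d5543_pr: speed away from the boundary on hyperbolic half-planar triangulations

The definitions (half-planar triangulations, the sigma-algebra generated by finite explorations,
translation invariance, the domain Markov property, simple random walk, distance to the boundary)
are in `Pool/Agent/Spd/Defs.lean`.
-/

namespace Pool.Agent.Results.MP_0d5543_pr.SpeedExists

open Pool.Agent.Spd MeasureTheory Filter

/-- **Q1 of MP_0d5543_pr.** For every `a` with `2 / 3 < a < 1` there is a deterministic constant `v`
such that for the translation invariant domain Markov law of half-planar triangulations with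
parameter `a` (the triangle at the root edge has an internal vertex with probability `a`), almost
surely `d(X_m, boundary) / m → v` for simple random walk `X` started at the root vertex. -/
theorem result (a : ℝ) (h1 : 2 / 3 < a) (h2 : a < 1) :
    ∃ v : ℝ, ∀ μ : Measure HPT,
      IsProbabilityMeasure μ → TransInv μ → DomMarkov μ →
      μ {H | H.step = .N} = ENNReal.ofReal a →
      ∀ᵐ p ∂(μ.prod unif),
        Tendsto (fun m : ℕ => (p.1.distBd (p.1.walk p.2 m) : ℝ) / m) atTop (nhds v) :=
  speed_all a h1 h2

end Pool.Agent.Results.MP_0d5543_pr.SpeedExists
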